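import Pool.Agent.Helper1.KL.Stmts2

/-!
Project KL (MP_0b9e0b_ag), KL-14a: the classes of the points with `m` affine coordinates, modulo
those of the points with less affine coordinates, are generated by the classes of good points.
-/

set_option autoImplicit false

namespace Pool.Agent.Helper36.KL

open Pool.Agent.Helper16 Pool.Agent.Helper1.KL

section

variable {F σ N : Type} [Field F] [Field N] [Algebra F N]

/-- A coordinate `0` can be replaced by `∞`: the field does not change. -/
theorem fld_replace (z z' : σ → Option N) (j : σ) (hj : z j = some 0) (hj' : z' j = none)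
    (h : ∀ i, i ≠ j → z' i = z i) : fld F z' = fld F z := by
  unfold fld
  refine le_antisymm ?_ ?_
  · rw [IntermediateField.adjoin_le_iff]
    rintro a ⟨i, hi⟩
    have hij : i ≠ j := by
      rintro rfl
      rw [hj'] at hi
      cases hi
    refine IntermediateField.subset_adjoin F _ ?_
    exact ⟨i, by rw [← h i hij]; exact hi⟩
  · rw [IntermediateField.adjoin_le_iff]
    rintro a ⟨i, hi⟩
    by_cases hij : i = j
    · subst hij
      rw [hj] at hi
      have h0 : (0 : N) = a := Option.some_injective _ hi
      rw [← h0]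
      exact zero_mem _
    · refine IntermediateField.subset_adjoin F _ ?_
      exact ⟨i, by rw [h i hij]; exact hi⟩

end

variable {k : Type} [Field k] {p : ℕ} [Fact p.Prime] [CharP k p] {n : ℕ} {b : Fin n → k} {r : ℕ}

/-- Replacing the labels `0` at the places which are not affine. -/
theorem cl_mem_GI (hL : ModLabel k p b r) {N : Type} [Field N] [Algebra (RatFunc k) N]
    (I : Finset (Fin n)) (c : ℕ) : ∀ z : Fin n ⊕ Fin n → Option N, XV p b N z →
    Algebra.trdeg (RatFunc k) (fld (RatFunc k) z) = r → (∀ i, i ∈ I ↔ z (Sum.inr i) ≠ none) →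
    ({j | j ∉ I ∧ z (Sum.inl j) ≠ none} : Set (Fin n)).ncard = c →
    cl p b r z ∈ GI k p b r I := by
  classical
  induction c with
  | zero =>
    intro z hz hr hI hc
    have h0 : ({j | j ∉ I ∧ z (Sum.inl j) ≠ none} : Set (Fin n)) = ∅ :=
      (Set.ncard_eq_zero (Set.toFinite _)).1 hc
    let aN : Algebra k N := ((algebraMap (RatFunc k) N).comp (algebraMap k (RatFunc k))).toAlgebra
    have hT : IsScalarTower k (RatFunc k) N := IsScalarTower.of_algebraMap_eq fun _ => rfl
    refine Submodule.subset_span ⟨N, inferInstance, aN, inferInstance, hT, z, ?_, rfl⟩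
    refine ⟨hz, fun i hi => (hI i).1 hi, fun i hi => ?_, hr⟩
    by_contra hne
    have h1 : i ∈ ({j | j ∉ I ∧ z (Sum.inl j) ≠ none} : Set (Fin n)) := ⟨hi, hne⟩
    rw [h0] at h1
    exact h1
  | succ c ih =>
    intro z hz hr hI hc
    have hne : ({j | j ∉ I ∧ z (Sum.inl j) ≠ none} : Set (Fin n)).Nonempty := by
      rw [← Set.ncard_pos (Set.toFinite _), hc]
      exact Nat.succ_pos c
    obtain ⟨j, hjI, hj⟩ := hne
    have hyj : z (Sum.inr j) = none := by
      by_contra h1
      exact hjI ((hI j).2 h1)
    have hxj : z (Sum.inl j) = some 0 := by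
      rcases hz j with ⟨-, h1 | h1⟩ | ⟨a, d, -, h1, -⟩
      · exact absurd h1 hj
      · exact h1
      · rw [hyj] at h1
        cases h1
    have h1 := hL N z hz hr j hxj
    set z' : Fin n ⊕ Fin n → Option N := Function.update z (Sum.inl j) none with hz'
    have hz'j : z' (Sum.inl j) = none := Function.update_self _ _ _
    have hz'i : ∀ i, i ≠ Sum.inl j → z' i = z i := fun i hi => Function.update_of_ne hi _ _
    have hz'r : ∀ i : Fin n, z' (Sum.inr i) = z (Sum.inr i) := fun i => hz'i _ (by simp)
    have hX : XV p b N z' := by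
      intro i
      by_cases hij : i = j
      · subst hij
        left
        exact ⟨by rw [hz'r, hyj], Or.inl hz'j⟩
      · have h2 : z' (Sum.inl i) = z (Sum.inl i) := hz'i _ (by simpa using hij)
        rw [h2, hz'r]
        exact hz i
    have hr' : Algebra.trdeg (RatFunc k) (fld (RatFunc k) z') = r := by
      rw [fld_replace z z' (Sum.inl j) hxj hz'j hz'i]
      exact hr
    have h2 : cl p b r z' ∈ GI k p b r I := by
      refine ih z' hX hr' (fun i => by rw [hz'r]; exact hI i) ?_
      have h3 : ({i | i ∉ I ∧ z (Sum.inl i) ≠ none} : Set (Fin n)) =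
          insert j ({i | i ∉ I ∧ z' (Sum.inl i) ≠ none} : Set (Fin n)) := by
        ext i
        rw [Set.mem_insert_iff, Set.mem_setOf_eq, Set.mem_setOf_eq]
        by_cases hij : i = j
        · subst hij
          simp [hjI, hj]
        · have h4 : z' (Sum.inl i) = z (Sum.inl i) := hz'i _ (by simpa using hij)
          rw [h4]
          simp [hij]
      have h4 : j ∉ ({i | i ∉ I ∧ z' (Sum.inl i) ≠ none} : Set (Fin n)) := fun h5 => h5.2 hz'j
      rw [h3, Set.ncard_insert_of_notMem h4 (Set.toFinite _)] at hc
      exact Nat.succ_injective hc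
    have h3 : Submodule.span ℚ {cl p b r z'} ≤ GI k p b r I := by
      rw [Submodule.span_le, Set.singleton_subset_iff]
      exact h2
    exact h3 h1

/-- KL-14a. -/
theorem modDec (hL : ModLabel k p b r) : ModDec k p b r := by
  classical
  intro m
  unfold GG
  rw [Submodule.span_le]
  rintro _ ⟨N, _, _, z, hz, hr, hm, rfl⟩
  rcases lt_or_eq_of_le (Nat.lt_succ_iff.1 hm) with h | h
  · exact Submodule.mem_sup_left (Submodule.subset_span
      ⟨N, inferInstance, inferInstance, z, hz, hr, h, rfl⟩)
  · refine Submodule.mem_sup_right ?_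
    have h1 : cl p b r z ∈ GI k p b r (aff z) := by
      refine cl_mem_GI hL (aff z) _ z hz hr (fun i => ?_) rfl
      unfold aff
      rw [Finset.mem_filter_univ]
    exact (le_iSup_of_le (aff z) (le_iSup_of_le h le_rfl) :
      GI k p b r (aff z) ≤ ⨆ (I : Finset (Fin n)) (_ : I.card = m), GI k p b r I) h1

end Pool.Agent.Helper36.KL
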